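import Pool.Agent.Lib_helper68.LEV.DefsG

/-!
# Lower bounds for central values of weight two newforms of prime level. Definitions.
-/

namespace Pool.Agent.LVB

open Pool.Agent.LEV Complex MeasureTheory Filter Topology UpperHalfPlane ModularGroup ProbabilityTheory
open scoped MatrixGroups Modular ENNReal ModularForm ComplexConjugate ContDiff

/-- the harmonic weight -/
noncomputable def om {N : ℕ} [Fact N.Prime] (f : S2 N) : ℝ := 1 / (4 * Real.pi * nr f)

/-- the sign of the functional equation -/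
noncomputable def se {N : ℕ} (f : S2 N) : ℝ := (co f N).re

/-- the list `f` consists of all newforms -/
def AllNew {N : ℕ} {ι : Type} (f : ι → S2 N) : Prop :=
  Function.Injective f ∧ ∀ g : S2 N, IsNew g ↔ ∃ i, f i = g

/-- all prime factors of `n` are larger than `z` -/
def rough (z n : ℕ) : Prop := ∀ p : ℕ, p.Prime → p ∣ n → z < p

/-- independent variables with the Sato-Tate distribution at the primes in `I` -/
structure IsST (I : Finset ℕ) (P : Measure (ℕ → ℝ)) : Prop where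
  prob : IsProbabilityMeasure P
  bdd : ∀ᵐ x ∂P, ∀ p ∈ I, |x p| ≤ 2
  ind : iIndepFun (fun (p : I) (x : ℕ → ℝ) => x p) P
  mom : ∀ p ∈ I, ∀ k : ℕ, ∫ x, Uu (x p) k ∂P = if k = 0 then 1 else 0

/-- the local Euler factor `1 / (1 - a x / √p + a² / p)` -/
noncomputable def el (p : ℕ) (a : ℂ) (x : ℝ) : ℂ :=
  (1 - a * (x : ℂ) / (Real.sqrt p : ℂ) + a ^ 2 / (p : ℂ))⁻¹

/-- the truncated exponential series of even degree `2K` -/
noncomputable def ex (K : ℕ) (t : ℝ) : ℝ := ∑ k ∈ Finset.range (2 * K + 1), t ^ k / (k.factorial : ℝ)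

/-- the sum over primes in `I` -/
noncomputable def PB (I : Finset ℕ) (x : ℕ → ℝ) : ℝ := ∑ p ∈ I, x p / Real.sqrt p

/-- the variance of `PB I` -/
noncomputable def HB (I : Finset ℕ) : ℝ := ∑ p ∈ I, 1 / (p : ℝ)

/-- one factor of the mollifier -/
noncomputable def mb1 (I : Finset ℕ) (K : ℕ) (x : ℕ → ℝ) : ℝ :=
  Real.exp (HB I / 2) * ex K (-PB I x)

/-- the mollifier with `J` blocks -/
noncomputable def mol (J : ℕ) (B : ℕ → Finset ℕ) (K : ℕ → ℕ) (x : ℕ → ℝ) : ℝ :=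
  ∏ i ∈ Finset.range J, mb1 (B i) (K i) x

/-- the number of blocks -/
noncomputable def JJ (N : ℕ) : ℕ := ⌈2 * Real.log (Real.log (Real.log N))⌉₊ + 1

/-- the blocks of primes: `N^{c₀ e^{-(i+1)}} < p ≤ N^{c₀ e^{-i}}` (no lower bound in the last block)
and `z₀ < p` -/
noncomputable def Bk (c₀ : ℝ) (z₀ N i : ℕ) : Finset ℕ :=
  (Finset.Icc 1 N).filter (fun p => p.Prime ∧ z₀ < p ∧
    (i + 1 < JJ N → (N : ℝ) ^ (c₀ * Real.exp (-(i + 1 : ℝ))) < p) ∧
    (p : ℝ) ≤ (N : ℝ) ^ (c₀ * Real.exp (-(i : ℝ))))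

/-- the degrees -/
noncomputable def Kk (A₁ N i : ℕ) : ℕ :=
  if i + 1 < JJ N then A₁ * (i + 1) else A₁ * ⌈Real.log (Real.log N)⌉₊

/-- the mollifier -/
noncomputable def Ml (c₀ : ℝ) (A₁ z₀ N : ℕ) (x : ℕ → ℝ) : ℝ := mol (JJ N) (Bk c₀ z₀ N) (Kk A₁ N) x

/-- a smooth symmetric probability density supported in `[9/20, 11/20]` -/
noncomputable def mv (v : ℝ) : ℝ :=
  (⟨1 / 40, 1 / 20, by norm_num, by norm_num⟩ : ContDiffBump (1 / 2 : ℝ)).normed volume v

/-- the weight in the approximate functional equation -/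
noncomputable def wt (N n : ℕ) : ℝ :=
  ∫ v : ℝ, mv v * Real.exp (-2 * Real.pi * n * (N : ℝ) ^ (-v))

/-- the point `(1 + iT) / log N` -/
noncomputable def sT (N : ℕ) (T : ℝ) : ℂ := (1 + (T : ℂ) * Complex.I) / (Real.log N : ℂ)

/-- the density in the Fourier representation of the weights -/
noncomputable def AT (N : ℕ) (T : ℝ) : ℂ :=
  1 / (2 * Real.pi) * (Complex.Gamma (sT N T) / (Real.log N : ℂ)) * (2 * Real.pi : ℂ) ^ (-(sT N T)) *
    ∫ v : ℝ, (mv v : ℂ) * Complex.exp ((v : ℂ) * (1 + (T : ℂ) * Complex.I))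

/-- the primes below `N` -/
def Pr (N : ℕ) : Finset ℕ := (Finset.range N).filter Nat.Prime

/-- the random Euler product over the primes below `N` -/
noncomputable def Lp (N : ℕ) (T : ℝ) (x : ℕ → ℝ) : ℂ :=
  ∏ p ∈ Pr N, el p ((p : ℂ) ^ (-(sT N T))) (x p)

open Classical in
/-- the model of half the central value -/
noncomputable def SP (N : ℕ) (x : ℕ → ℝ) : ℝ :=
  ∑' n : ℕ, if n ≠ 0 ∧ n.primeFactors ⊆ Pr N then wt N n / Real.sqrt n * Um n x else 0

/-- the length of the Dirichlet polynomial -/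
noncomputable def X0 (N : ℕ) : ℕ := ⌊(N : ℝ) ^ (3 / 5 : ℝ)⌋₊

/-- the truncated sum -/
noncomputable def St (N : ℕ) (x : ℕ → ℝ) : ℝ :=
  ∑ n ∈ Finset.Icc 1 (X0 N), wt N n / Real.sqrt n * Um n x

end Pool.Agent.LVB
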